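import Pool.Agent.Helper28_TP.DyS
import Pool.Agent.Helper28_TP.Inst

/-!
# CHB: a fixed collection of disjoint blocks is sparse
-/

set_option autoImplicit false

namespace Pool.Agent.TP.H40

open Pool.Agent.TP
open MeasureTheory ProbabilityTheory

/-- A symmetric double sum is at most twice its ordered half. -/
theorem dsum_le {ι : Type} (S : Finset ι) (u : ι → ℕ) (f : ι → ι → ℝ)
    (hf : ∀ i ∈ S, ∀ j ∈ S, 0 ≤ f i j) (hs : ∀ i j, f i j = f j i) (g : ι → ℝ)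
    (hg : ∀ i ∈ S, ∑ j ∈ S.filter (fun j => u i ≤ u j), f i j ≤ g i) :
    ∑ i ∈ S, ∑ j ∈ S, f i j ≤ 2 * ∑ i ∈ S, g i := by
  have h1 : ∑ i ∈ S, ∑ j ∈ S, f i j ≤ ∑ i ∈ S, ∑ j ∈ S,
      ((if u i ≤ u j then f i j else 0) + (if u j ≤ u i then f j i else 0)) := by
    refine Finset.sum_le_sum fun i hi => Finset.sum_le_sum fun j hj => ?_
    rcases le_total (u i) (u j) with h | h
    · rw [if_pos h]
      have : 0 ≤ (if u j ≤ u i then f j i else 0) := by
        split_ifs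
        · exact hf j hj i hi
        · exact le_rfl
      linarith
    · rw [if_pos h (c := u j ≤ u i), hs j i]
      have : 0 ≤ (if u i ≤ u j then f i j else 0) := by
        split_ifs
        · exact hf i hi j hj
        · exact le_rfl
      linarith
  refine h1.trans ?_
  simp only [Finset.sum_add_distrib]
  rw [Finset.sum_comm (f := fun i j => if u j ≤ u i then f j i else 0)]
  have h2 : ∑ i ∈ S, ∑ j ∈ S, (if u i ≤ u j then f i j else 0) ≤ ∑ i ∈ S, g i := by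
    refine Finset.sum_le_sum fun i hi => ?_
    rw [← Finset.sum_filter]
    exact hg i hi
  linarith

theorem Lw_ge_one (k A : ℕ) : 1 ≤ Lw k A := by
  unfold Lw
  split_ifs
  · have : (0 : ℝ) ≤ A := Nat.cast_nonneg A
    linarith
  · exact le_rfl

theorem chb (hCher : CherStmt) (hPair : PairStmt) (hSst : SstStmt) : ChbStmt := by
  intro k lam s ε κ₀ hlam hs hε hε1 hκ₀ hκs C₁
  obtain ⟨C, hC, hsst⟩ := hSst k
  have hK0 : 0 < κ₀ ^ (k + 2) := pow_pos hκ₀ _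
  have hden : 0 < lam * ε ^ 2 * κ₀ ^ (k + 2) := by positivity
  refine ⟨1 + 4 * C * |C₁| / (lam * ε ^ 2 * κ₀ ^ (k + 2)), by positivity, ?_⟩
  intro A τ hτ 𝒥 hJ Y
  set C₀ : ℝ := 1 + 4 * C * |C₁| / (lam * ε ^ 2 * κ₀ ^ (k + 2)) with hC₀
  have hC01 : 1 ≤ C₀ := by
    have : 0 ≤ 4 * C * |C₁| / (lam * ε ^ 2 * κ₀ ^ (k + 2)) := by positivity
    linarith
  have hLw := Lw_ge_one k A
  have hτ1 : (1 : ℝ) ≤ τ := by nlinarith
  have hτ0 : (0 : ℝ) < τ := by linarith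
  have hτn : 0 < τ := by exact_mod_cast hτ0
  -- abbreviations
  set u : ℕ × ℕ → ℕ := fun J => (J.2 - 1) * 2 ^ J.1 with hu
  set κ : ℕ × ℕ → ℝ := fun J => side κ₀ J.1 τ with hκ
  set θ : ℝ := ε / (2 * C * Lw k A) with hθ
  have hLw0 : 0 < Lw k A := by linarith
  have hθ0 : 0 < θ := by positivity
  set th : ℕ × ℕ → ℝ := fun J => θ * Real.sqrt (2 ^ J.1) ^ (-(k : ℤ)) with hth
  have hsq : ∀ a : ℕ, 0 < Real.sqrt ((2 : ℝ) ^ a) := fun a => Real.sqrt_pos.2 (by positivity)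
  have hthp : ∀ J, 0 ≤ th J := fun J => by
    have := hsq J.1
    simp only [hth]
    positivity
  have hκp : ∀ J, 0 < κ J := fun J => by
    simp only [hκ, side]
    have : 0 < Real.sqrt ((2 : ℝ) ^ J.1 * τ) := Real.sqrt_pos.2 (by positivity)
    positivity
  have hcher := hCher k lam s ε hlam hs hε hε1 (ℕ × ℕ) 𝒥 Y κ (fun J => u J * τ) th hκp hthp
  refine le_trans (le_trans (le_of_eq ?_) hcher) ?_
  · rfl
  refine ENNReal.ofReal_le_ofReal (Real.exp_le_exp.2 (neg_le_neg ?_))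
  -- the mean numbers of common visitors
  set mm : ℕ × ℕ → ℕ × ℕ → ℝ := fun J J' => (∫⁻ x, walkLaw k s {y | walk x y (u J * τ) ∈
          cube (Y J) (κ J) ∧ walk x y (u J' * τ) ∈ cube (Y J') (κ J')}).toReal with hmm
  have hmmp : ∀ J J', 0 ≤ mm J J' := fun J J' => ENNReal.toReal_nonneg
  have hmms : ∀ J J', mm J J' = mm J' J := by
    intro J J'
    simp only [hmm]
    congr 2
    funext x
    congr 1
    ext y
    simp only [Set.mem_ofPred_eq]
    exact and_comm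
  have hmm1 : ∀ J J', mm J J' ≤ κ J ^ (k + 2) := by
    intro J J'
    exact ENNReal.toReal_le_of_le_ofReal (pow_nonneg (hκp J).le _)
      (hPair k s hs (Y J) (Y J') (κ J) (κ J') (u J * τ) (u J' * τ) (hκp J) (hκp J')).1
  have hmm2 : ∀ J J', u J < u J' →
      mm J J' ≤ κ J ^ (k + 2) * Real.sqrt (2 ^ J'.1 / ((u J' : ℝ) - u J)) ^ (k + 2) := by
    intro J J' huu
    have h0 : (0 : ℝ) < (u J' : ℝ) - u J := by
      have : (u J : ℝ) < u J' := by exact_mod_cast huu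
      linarith
    have h1 := (hPair k s hs (Y J) (Y J') (κ J) (κ J') (u J * τ) (u J' * τ) (hκp J) (hκp J')).2
      (Nat.mul_lt_mul_of_pos_right huu hτn)
    have h2 : ((u J' * τ : ℕ) : ℝ) - ((u J * τ : ℕ) : ℝ) = ((u J' : ℝ) - u J) * τ := by
      push_cast; ring
    rw [h2] at h1
    have h3 : 0 < Real.sqrt (((u J' : ℝ) - u J) * τ) := Real.sqrt_pos.2 (by positivity)
    have h4 : κ J' / (s * Real.sqrt (((u J' : ℝ) - u J) * τ)) ≤
        Real.sqrt (2 ^ J'.1 / ((u J' : ℝ) - u J)) := by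
      have e1 : Real.sqrt (2 ^ J'.1 / ((u J' : ℝ) - u J)) =
          Real.sqrt (2 ^ J'.1 * τ) / Real.sqrt (((u J' : ℝ) - u J) * τ) := by
        rw [← Real.sqrt_div (by positivity)]
        congr 1
        field_simp
      rw [e1]
      simp only [hκ, side]
      rw [div_le_div_iff₀ (by positivity) h3]
      have h5 : 0 ≤ Real.sqrt (2 ^ J'.1 * (τ : ℝ)) * Real.sqrt (((u J' : ℝ) - u J) * τ) := by
        positivity
      nlinarith
    have h6 : (κ J' / (s * Real.sqrt (((u J' : ℝ) - u J) * τ))) ^ (k + 2) ≤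
        Real.sqrt (2 ^ J'.1 / ((u J' : ℝ) - u J)) ^ (k + 2) := by
      have := (hκp J').le
      exact pow_le_pow_left₀ (by positivity) h4 _
    have h7 : mm J J' ≤ κ J ^ (k + 2) *
        (κ J' / (s * Real.sqrt (((u J' : ℝ) - u J) * τ))) ^ (k + 2) := by
      have e1 := (hκp J).le
      have e2 := (hκp J').le
      exact ENNReal.toReal_le_of_le_ofReal (by positivity) h1
    exact h7.trans (mul_le_mul_of_nonneg_left h6 (pow_nonneg (hκp J).le _))
  -- the weights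
  have hcell : ∀ J : ℕ × ℕ, th J * κ J ^ (k + 2) =
      θ * κ₀ ^ (k + 2) * Real.sqrt τ ^ (k + 2) * 2 ^ J.1 := by
    intro J
    have h1 := hsq J.1
    simp only [hth, hκ, side]
    rw [Real.sqrt_mul (by positivity), mul_pow, mul_pow, zpow_neg, zpow_natCast]
    have h2 : Real.sqrt ((2 : ℝ) ^ J.1) ^ (k + 2) =
        Real.sqrt ((2 : ℝ) ^ J.1) ^ k * 2 ^ J.1 := by
      rw [pow_add, Real.sq_sqrt (by positivity)]
    rw [h2]
    field_simp
  have hrow : ∀ J ∈ 𝒥, ∑ J' ∈ 𝒥.filter (fun J' => u J ≤ u J'), th J * th J' * mm J J' ≤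
      (θ * (C * Lw k A)) * (th J * κ J ^ (k + 2)) := by
    intro J hJJ
    have hlt : u J < 2 ^ (A + 1) := by
      refine lt_of_lt_of_le ?_ (hJ.1 J hJJ).2.2
      simp only [hu]
      exact Nat.mul_lt_mul_of_pos_right (by omega) (by positivity)
    have h1 := hsst A 𝒥 hJ (u J) hlt
    have h2 : ∑ J' ∈ 𝒥.filter (fun J' => u J ≤ u J'), th J * th J' * mm J J' ≤
        ∑ J' ∈ 𝒥.filter (fun J' => u J ≤ u J'), (th J * κ J ^ (k + 2) * θ) *
          (Real.sqrt (2 ^ J'.1) ^ (-(k : ℤ)) * (if u J = (J'.2 - 1) * 2 ^ J'.1 then 1 else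
        min 1 (Real.sqrt (2 ^ J'.1 / (((J'.2 - 1) * 2 ^ J'.1 : ℕ) - (u J : ℝ))) ^ (k + 2)))) := by
      refine Finset.sum_le_sum fun J' hJ' => ?_
      have hle := (Finset.mem_filter.1 hJ').2
      have h3 : mm J J' ≤ κ J ^ (k + 2) * (if u J = (J'.2 - 1) * 2 ^ J'.1 then 1 else
        min 1 (Real.sqrt (2 ^ J'.1 / (((J'.2 - 1) * 2 ^ J'.1 : ℕ) - (u J : ℝ))) ^ (k + 2))) := by
        by_cases he : u J = (J'.2 - 1) * 2 ^ J'.1
        · rw [if_pos he, mul_one]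
          exact hmm1 J J'
        · rw [if_neg he]
          have h4 : u J < u J' := lt_of_le_of_ne hle he
          rw [mul_min_of_nonneg _ _ (pow_nonneg (hκp J).le _), mul_one]
          exact le_min (hmm1 J J') (hmm2 J J' h4)
      have h5 : th J * th J' * mm J J' ≤ th J * th J' * (κ J ^ (k + 2) *
          (if u J = (J'.2 - 1) * 2 ^ J'.1 then 1 else
        min 1 (Real.sqrt (2 ^ J'.1 / (((J'.2 - 1) * 2 ^ J'.1 : ℕ) - (u J : ℝ))) ^ (k + 2)))) :=
        mul_le_mul_of_nonneg_left h3 (mul_nonneg (hthp J) (hthp J'))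
      refine h5.trans (le_of_eq ?_)
      simp only [hth]
      ring
    refine h2.trans ?_
    rw [← Finset.mul_sum]
    have h6 : 0 ≤ th J * κ J ^ (k + 2) * θ := by
      have e1 := hthp J
      have e2 := (hκp J).le
      positivity
    have h7 := mul_le_mul_of_nonneg_left h1 h6
    refine h7.trans (le_of_eq ?_)
    ring
  have hdbl := dsum_le 𝒥 u (fun J J' => th J * th J' * mm J J')
    (fun J _ J' _ => mul_nonneg (mul_nonneg (hthp J) (hthp J')) (hmmp J J'))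
    (fun J J' => by show th J * th J' * mm J J' = th J' * th J * mm J' J; rw [hmms J J']; ring)
    (fun J => (θ * (C * Lw k A)) * (th J * κ J ^ (k + 2))) hrow
  rw [← Finset.mul_sum] at hdbl
  have hS : ∑ J ∈ 𝒥, th J * κ J ^ (k + 2) =
      θ * κ₀ ^ (k + 2) * Real.sqrt τ ^ (k + 2) * ∑ J ∈ 𝒥, (2 : ℝ) ^ J.1 := by
    rw [Finset.mul_sum]
    exact Finset.sum_congr rfl fun J _ => hcell J
  have hθC : θ * (C * Lw k A) = ε / 2 := by
    simp only [hθ]
    field_simp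
  rw [hθC] at hdbl
  have hτk : (τ : ℝ) ≤ Real.sqrt τ ^ (k + 2) := by
    have h1 : (1 : ℝ) ≤ Real.sqrt τ := by
      rw [Real.one_le_sqrt]; exact hτ1
    calc (τ : ℝ) = Real.sqrt τ ^ 2 := (Real.sq_sqrt hτ0.le).symm
      _ ≤ Real.sqrt τ ^ (k + 2) := pow_le_pow_right₀ h1 (by omega)
  have hX : 0 ≤ ∑ J ∈ 𝒥, (2 : ℝ) ^ J.1 := Finset.sum_nonneg fun J _ => by positivity
  have hkey : C₁ ≤ lam * (ε / 2) * (θ * κ₀ ^ (k + 2) * Real.sqrt τ ^ (k + 2)) := by
    have h1 : C₀ * Lw k A ≤ Real.sqrt τ ^ (k + 2) := hτ.trans hτk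
    have h2 : lam * (ε / 2) * (θ * κ₀ ^ (k + 2) * (C₀ * Lw k A)) ≤
        lam * (ε / 2) * (θ * κ₀ ^ (k + 2) * Real.sqrt τ ^ (k + 2)) := by
      have : 0 ≤ lam * (ε / 2) * (θ * κ₀ ^ (k + 2)) := by positivity
      nlinarith
    refine le_trans ?_ h2
    have h3 : lam * (ε / 2) * (θ * κ₀ ^ (k + 2) * (C₀ * Lw k A)) =
        (lam * ε ^ 2 * κ₀ ^ (k + 2)) / (4 * C) * C₀ := by
      simp only [hθ]
      field_simp
      ring
    rw [h3, hC₀, mul_add, mul_one]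
    have h4 : lam * ε ^ 2 * κ₀ ^ (k + 2) / (4 * C) *
        (4 * C * |C₁| / (lam * ε ^ 2 * κ₀ ^ (k + 2))) = |C₁| := by
      field_simp
    rw [h4]
    have h5 := le_abs_self C₁
    have h6 : 0 ≤ lam * ε ^ 2 * κ₀ ^ (k + 2) / (4 * C) := by positivity
    linarith
  have hfin : C₁ * ∑ J ∈ 𝒥, (2 : ℝ) ^ J.1 ≤
      lam * (ε / 2) * ∑ J ∈ 𝒥, th J * κ J ^ (k + 2) := by
    rw [hS]
    have := mul_le_mul_of_nonneg_right hkey hX
    linarith
  refine hfin.trans ?_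
  have hlast : (∑ J ∈ 𝒥, ∑ J' ∈ 𝒥, th J * th J' * mm J J') / 2 ≤
      ε / 2 * ∑ J ∈ 𝒥, th J * κ J ^ (k + 2) := by
    linarith
  have := mul_le_mul_of_nonneg_left hlast hlam.le
  have e : lam * (ε * ∑ J ∈ 𝒥, th J * κ J ^ (k + 2) -
      (∑ J ∈ 𝒥, ∑ J' ∈ 𝒥, th J * th J' * mm J J') / 2) =
      lam * ε * (∑ J ∈ 𝒥, th J * κ J ^ (k + 2)) -
        lam * ((∑ J ∈ 𝒥, ∑ J' ∈ 𝒥, th J * th J' * mm J J') / 2) := by ring
  have goal' : lam * (ε / 2) * ∑ J ∈ 𝒥, th J * κ J ^ (k + 2) ≤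
      lam * (ε * ∑ J ∈ 𝒥, th J * κ J ^ (k + 2) -
      (∑ J ∈ 𝒥, ∑ J' ∈ 𝒥, th J * th J' * mm J J') / 2) := by
    rw [e]
    linarith
  exact goal'

end Pool.Agent.TP.H40
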