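import Pool.Agent.Helper28_TP.StS

/-!
# ONE: one step in plane coordinates
-/

set_option autoImplicit false

namespace Pool.Agent.TP.H40

open Pool.Agent.TP

variable {k : ℕ}

theorem N_neg {N : Finset (Pt k)} {ρ : ℕ} (h : GoodN N ρ) {z : Pt k} (hz : z ∈ N) : -z ∈ N := by
  classical
  have key : ∀ S : Finset (Fin (k + 2)), (fun j => if j ∈ S then -z j else z j) ∈ N := by
    intro S
    induction S using Finset.induction_on with
    | empty => simpa using hz
    | insert a S ha ih =>
      have h1 := h.neg _ ih a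
      convert h1 using 1
      funext j
      by_cases hj : j = a
      · subst hj
        simp [ha]
      · simp [Finset.mem_insert, hj]
  have h2 := key Finset.univ
  convert h2 using 1
  funext j
  simp

theorem N_symm {N : Finset (Pt k)} {ρ : ℕ} (h : GoodN N ρ) {u v : Pt k} (hz : v - u ∈ N) :
    u - v ∈ N := by
  have := N_neg h hz
  rwa [neg_sub] at this

theorem Conn_mono {N : Finset (Pt k)} {A B : Set (Pt k)} (h : A ⊆ B) {x y : Pt k}
    (hc : Conn N A x y) : Conn N B x y := by
  induction hc with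
  | refl => exact Relation.ReflTransGen.refl
  | tail _ h2 ih => exact Relation.ReflTransGen.tail ih ⟨h2.1, h h2.2⟩

theorem Conn_trans {N : Finset (Pt k)} {A : Set (Pt k)} {x y w : Pt k}
    (h : Conn N A x y) (h' : Conn N A y w) : Conn N A x w :=
  Relation.ReflTransGen.trans h h'

theorem Conn_mem {N : Finset (Pt k)} {A : Set (Pt k)} {x y : Pt k} (hx : x ∈ A)
    (h : Conn N A x y) : y ∈ A := by
  induction h with
  | refl => exact hx
  | tail _ h2 _ => exact h2.2

theorem Conn_symm {N : Finset (Pt k)} {ρ : ℕ} (hN : GoodN N ρ) {A : Set (Pt k)} {x y : Pt k}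
    (hx : x ∈ A) (h : Conn N A x y) : Conn N A y x := by
  induction h with
  | refl => exact Relation.ReflTransGen.refl
  | @tail u v h1 h2 ih =>
    have hu : u ∈ A := Conn_mem hx h1
    exact Relation.ReflTransGen.head ⟨N_symm hN h2.1, hu⟩ ih

theorem axi_ne (a : Bool) : axi k (!a) ≠ axi k a := by
  cases a
  · exact (Fin.zero_ne_one).symm
  · exact Fin.zero_ne_one

theorem axi_cases (a : Bool) : ((axi k a = 0 ∧ axi k (!a) = 1) ∨ (axi k a = 1 ∧ axi k (!a) = 0)) := by
  cases a
  · exact Or.inl ⟨rfl, rfl⟩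
  · exact Or.inr ⟨rfl, rfl⟩

theorem edg_near {m n : ℕ} {z : ℤ × ℤ} {a : Bool} {g : ℤ} (hg : g = 1 ∨ g = -1) {x : Pt k}
    (h : Edg (Ms m n) n z a g x) : nearB (10 * Ms m n) (nbr z a g) (20 * Ms m n) x ∧
      ∀ i, i ≠ 0 → i ≠ 1 → |x i| ≤ 3 * Ms m n := by
  obtain ⟨h1, h2, h3, -, h5⟩ := h
  have hM : 0 < Ms m n := by unfold Ms; positivity
  generalize Ms m n = M at *
  have h01 : (1 : Fin (k + 2)) ≠ 0 := (Fin.zero_ne_one).symm
  refine ⟨?_, fun i hi hi' => (h5 i hi hi').trans (by linarith)⟩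
  cases a <;>
  · simp only [pc, lc, nearB, cen, nbr, axi, h01, if_true, if_false, Bool.not_true,
      Bool.not_false, Bool.false_eq_true, abs_le] at h1 h2 h3 ⊢
    rcases hg with rfl | rfl
    · refine ⟨⟨?_, ?_⟩, ⟨?_, ?_⟩⟩ <;> nlinarith [h3.1, h3.2]
    · refine ⟨⟨?_, ?_⟩, ⟨?_, ?_⟩⟩ <;> nlinarith [h3.1, h3.2]

theorem lyr_inj {z : ℤ × ℤ} {i j : ℕ} (h : lyr z i = lyr z j) : i = j := by
  unfold lyr at h
  omega

theorem lyr_pos (z : ℤ × ℤ) (i : ℕ) : 1 ≤ lyr z i := by
  unfold lyr
  omega

theorem lyr_le (z : ℤ × ℤ) {i : ℕ} (hi : i < 16) : lyr z i ≤ KK := by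
  unfold lyr KK
  have h1 : (z.1 % 3).toNat ≤ 2 := by omega
  have h2 : (z.2 % 3).toNat ≤ 2 := by omega
  omega

open Classical in
/-- The sign vector of the step. -/
noncomputable def sg (b : Pt k) (a' : Bool) (g' t : ℤ) : Pt k := fun j =>
  if j = axi k a' then g' else if j = axi k (!a') then t else if 0 < b j then -1 else 1

theorem one : OneStmt := by
  intro k N ρ p ε m n δ hN hmn _ _ hSt Reg C F X Λ s s₁ z a g b a' g' t i hV hval hg hz hzC hzF
    hg' ht hi hP hb hbj hW hT Φ βS βF hS hSF h1 h2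
  have hM : Ms m n = (n : ℤ) + m + 1 := rfl
  have hsa : sg b a' g' t (axi k a') = g' := by simp [sg]
  have hst : sg b a' g' t (axi k (!a')) = t := by
    simp [sg, axi_ne a']
  have hsj : ∀ j, j ≠ 0 → j ≠ 1 → sg b a' g' t j = if 0 < b j then -1 else 1 := by
    intro j h0 h1
    have e1 : j ≠ axi k a' := by
      rcases axi_cases (k := k) a' with h | h
      · rw [h.1]; exact h0
      · rw [h.1]; exact h1
    have e2 : j ≠ axi k (!a') := by
      rcases axi_cases (k := k) a' with h | h
      · rw [h.2]; exact h1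
      · rw [h.2]; exact h0
    simp [sg, e1, e2]
  have hne : ∀ j : Fin (k + 2), j ≠ 0 → j ≠ 1 → j ≠ axi k a' := by
    intro j h0 h1
    rcases axi_cases (k := k) a' with h | h
    · rw [h.1]; exact h0
    · rw [h.1]; exact h1
  have hsg : IsSg (sg b a' g' t) := by
    intro j
    unfold sg
    split_ifs
    · exact hg'
    · exact ht
    · exact Or.inr rfl
    · exact Or.inl rfl
  -- the window lies in the region of the edge
  have hwin : ∀ x ∈ win m n b (axi k a') (sg b a' g' t), inW m n b a' g' t x ∧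
      ∀ j, j ≠ 0 → j ≠ 1 → |x j| ≤ 2 * Ms m n := by
    intro x hx
    rw [win, Finset.mem_union] at hx
    have hxj : ∀ j, j ≠ 0 → j ≠ 1 → |x j - b j| ≤ n := by
      intro j h0 h1
      rcases hx with hx | hx
      · exact mem_bx.1 hx j
      · rw [tgt, Finset.mem_filter] at hx
        have h3 := hx.2.2 j (hne j h0 h1)
        rw [hsj j h0 h1] at h3
        rw [abs_le]
        split_ifs at h3
        · constructor <;> linarith [h3.1, h3.2]
        · constructor <;> linarith [h3.1, h3.2]
    refine ⟨?_, ?_⟩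
    · rcases hx with hx | hx
      · exact Or.inl ⟨mem_bx.1 hx 0, mem_bx.1 hx 1⟩
      · rw [tgt, Finset.mem_filter, mem_bx] at hx
        obtain ⟨hx1, hx2, hx3⟩ := hx
        have h4 := hx3 _ (axi_ne a')
        have h5 := hx1 (axi k a')
        rw [hst] at h4
        rw [hsa] at hx2
        refine Or.inr ⟨hx2, ?_, h4.1, h4.2⟩
        push_cast at h5
        rw [abs_le] at h5
        rcases hg' with rfl | rfl
        · linarith [h5.1, h5.2]
        · linarith [h5.1, h5.2]
    · intro j h0 h1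
      have h3 := hxj j h0 h1
      have h4 := hbj j h0 h1
      rw [hM]
      rw [abs_le] at h3 h4 ⊢
      constructor <;> linarith [h3.1, h3.2, h4.1, h4.2]
  have hE : ∀ x ∈ win m n b (axi k a') (sg b a' g' t), Edg (Ms m n) n z a g x :=
    fun x hx => hW x (hwin x hx).2 (hwin x hx).1
  have hpost : ∀ s', Nxt N p ε KK (win m n b (axi k a') (sg b a' g' t)) (lyr (nbr z a g) i) s₁ s' →
      Post N p ε m n z a g (i + 1) s s' := by
    intro s' hs'
    refine ⟨hs'.ok, ?_, hP.sub.trans hs'.sub, ?_, ?_, ?_, ?_⟩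
    · have key : ∀ x ∈ s'.R, ∃ r ∈ s₁.R, Conn N ↑s'.R r x := hs'.conn
      intro x hx y hy
      obtain ⟨r, hr, hrx⟩ := key x hx
      obtain ⟨r', hr', hry⟩ := key y hy
      have hrs : r ∈ (↑s'.R : Set (Pt k)) := hs'.sub hr
      have c1 := Conn_symm hN hrs hrx
      have c2 : Conn N ↑s'.R r r' := Conn_mono (by exact_mod_cast hs'.sub) (hP.rc r hr r' hr')
      exact Conn_trans c1 (Conn_trans c2 hry)
    · intro x hx
      rcases Finset.mem_union.1 (hs'.cov hx) with h | h
      · exact hP.cov x h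
      · exact Or.inr (hE x h)
    · intro x hx
      rcases Finset.mem_union.1 (hs'.covR hx) with h | h
      · exact hP.covR x h
      · exact Or.inr (hE x h)
    · intro v j hvj
      by_cases hc : s'.q (v, j) = s₁.q (v, j)
      · rw [hc] at hvj
        obtain ⟨e1, e2⟩ := hP.keep v j hvj
        refine ⟨e1, ?_⟩
        rcases e2 with e2 | ⟨i', hi', e2⟩
        · exact Or.inl e2
        · exact Or.inr ⟨i', by omega, e2⟩
      · obtain ⟨e1, e2⟩ := hs'.keep v j hc
        refine ⟨hE v e1, ?_⟩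
        rcases e2 with e2 | e2
        · exact Or.inl e2
        · exact Or.inr ⟨i, by omega, e2⟩
    · intro v hv
      rcases hs'.adj v hv with h | h
      · rcases hP.adj v h with h' | ⟨u, hu, h'⟩
        · exact Or.inl h'
        · exact Or.inr ⟨u, hs'.sub hu, h'⟩
      · exact Or.inr h
  refine hSt Λ s₁ b (axi k a') (sg b a' g' t) (lyr (nbr z a g) i) hsg hP.ok (lyr_pos _ _)
    (lyr_le _ hi) ?_ hb ?_ ?_ ?_ Φ βS βF hS hSF ?_ ?_
  · intro x hx
    obtain ⟨e1, e2⟩ := edg_near hg (hE x hx)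
    exact hV _ hz x e1 e2
  · rw [Finset.disjoint_left]
    intro x hx hx'
    refine hT x hx' ?_
    rw [tgt, Finset.mem_filter, mem_bx] at hx
    obtain ⟨hx1, hx2, hx3⟩ := hx
    have h4 := hx3 _ (axi_ne a')
    have h5 := hx1 (axi k a')
    rw [hst] at h4
    rw [hsa] at hx2
    refine ⟨hx2, ?_, h4.1, h4.2⟩
    push_cast at h5
    rw [abs_le] at h5
    rcases hg' with rfl | rfl
    · linarith [h5.1, h5.2]
    · linarith [h5.1, h5.2]
  · intro v hv
    have e0 : s₁.q (v, lyr (nbr z a g) i) = s.q (v, lyr (nbr z a g) i) := by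
      by_contra hc
      obtain ⟨-, e2⟩ := hP.keep v _ hc
      rcases e2 with e2 | ⟨i', hi', e2⟩
      · have := lyr_pos (nbr z a g) i
        omega
      · have := lyr_inj e2
        omega
    rw [e0]
    exact hval.lays _ hz hzC hzF v (edg_near hg (hE v hv)).1 i hi
  · intro v hv hvw
    rcases hP.adj v hv with h | h
    · rcases hval.adj v h with h' | ⟨u, hu, h'⟩
      · exfalso
        have e1 := (edg_near hg (hE v hvw)).1.1
        have e2 := hval.xr _ hz
        have e3 : cen k (10 * Ms m n) (nbr z a g) 0 = 10 * Ms m n * (nbr z a g).1 := by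
          simp [cen]
        rw [e3, abs_le] at e1
        linarith [e1.1]
      · exact ⟨u, hP.sub hu, h'⟩
    · exact h
  · rintro s' hs' ⟨b', hb1, hb2⟩
    obtain ⟨c1, c2⟩ := hb1
    rw [hsa] at c1
    have c3 := c2 _ (axi_ne a')
    rw [hst] at c3
    refine h1 s' b' (hpost s' hs') hs'.sub ?_ hb2 (by rw [hM]; exact c1) c3.1 c3.2 ?_
    · intro x hx
      rcases Finset.mem_union.1 (hs'.cov hx) with h | h
      · exact Or.inl h
      · exact Or.inr (hwin x h).1
    · intro j h0 h1
      have c4 := c2 j (hne j h0 h1)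
      rw [hsj j h0 h1] at c4
      have c5 := hbj j h0 h1
      rw [abs_le] at c5 ⊢
      split_ifs at c4
      · constructor <;> linarith [c4.1, c4.2, c5.1, c5.2]
      · constructor <;> linarith [c4.1, c4.2, c5.1, c5.2]
  · intro s' hs'
    exact h2 s' (hpost s' hs')

end Pool.Agent.TP.H40
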